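import Mathlib

/-!
# A centrally essential ring whose Jacobson radical is not centrally essential

The ring is `ℤ ⊕ J`, where `J = ℤ/4 a ⊕ ℤ/4 b ⊕ ℤ/2 c` with `a b = c` and all other products of
generators equal to zero. Multiplication by `2` moves every non-central element to a nonzero
central element, but `2` is not in the radical `J`, and the center of `J` annihilates `J`.
-/

namespace Pool.Agent.Results.MP_0b5955_al.JacobsonNotEssential

/-- A ring, possibly without identity, is centrally essential if it is commutative or every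
non-central `a` has `a * x = y` for some nonzero central `x` and `y`. -/
def IsCentrallyEssential (R : Type*) [NonUnitalRing R] : Prop :=
  (∀ a b : R, a * b = b * a) ∨
    ∀ a : R, a ∉ NonUnitalSubring.center R →
      ∃ x ∈ NonUnitalSubring.center R, ∃ y ∈ NonUnitalSubring.center R,
        x ≠ 0 ∧ y ≠ 0 ∧ a * x = y

/-- The underlying type of the example. -/
@[ext] structure Ex where
  /-- coefficient of `1` -/
  n : ℤ
  /-- coefficient of `a` -/
  a : ZMod 4
  /-- coefficient of `b` -/
  b : ZMod 4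
  /-- coefficient of `c = a b` -/
  c : ZMod 2

namespace Ex

/-- reduction modulo 2 -/
def red : ZMod 4 →+* ZMod 2 := ZMod.castHom (by norm_num) (ZMod 2)

instance : Zero Ex := ⟨⟨0, 0, 0, 0⟩⟩
instance : One Ex := ⟨⟨1, 0, 0, 0⟩⟩
instance : Add Ex := ⟨fun x y => ⟨x.n + y.n, x.a + y.a, x.b + y.b, x.c + y.c⟩⟩
instance : Neg Ex := ⟨fun x => ⟨-x.n, -x.a, -x.b, -x.c⟩⟩
instance : Mul Ex := ⟨fun x y =>
  ⟨x.n * y.n, x.n * y.a + y.n * x.a, x.n * y.b + y.n * x.b,
    x.n * y.c + y.n * x.c + red x.a * red y.b⟩⟩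

@[simp] theorem zero_n : (0 : Ex).n = 0 := rfl
@[simp] theorem zero_a : (0 : Ex).a = 0 := rfl
@[simp] theorem zero_b : (0 : Ex).b = 0 := rfl
@[simp] theorem zero_c : (0 : Ex).c = 0 := rfl
@[simp] theorem one_n : (1 : Ex).n = 1 := rfl
@[simp] theorem one_a : (1 : Ex).a = 0 := rfl
@[simp] theorem one_b : (1 : Ex).b = 0 := rfl
@[simp] theorem one_c : (1 : Ex).c = 0 := rfl
@[simp] theorem add_n (x y : Ex) : (x + y).n = x.n + y.n := rfl
@[simp] theorem add_a (x y : Ex) : (x + y).a = x.a + y.a := rfl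
@[simp] theorem add_b (x y : Ex) : (x + y).b = x.b + y.b := rfl
@[simp] theorem add_c (x y : Ex) : (x + y).c = x.c + y.c := rfl
@[simp] theorem neg_n (x : Ex) : (-x).n = -x.n := rfl
@[simp] theorem neg_a (x : Ex) : (-x).a = -x.a := rfl
@[simp] theorem neg_b (x : Ex) : (-x).b = -x.b := rfl
@[simp] theorem neg_c (x : Ex) : (-x).c = -x.c := rfl
@[simp] theorem mul_n (x y : Ex) : (x * y).n = x.n * y.n := rfl
@[simp] theorem mul_a (x y : Ex) : (x * y).a = x.n * y.a + y.n * x.a := rfl
@[simp] theorem mul_b (x y : Ex) : (x * y).b = x.n * y.b + y.n * x.b := rfl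
@[simp] theorem mul_c (x y : Ex) :
    (x * y).c = x.n * y.c + y.n * x.c + red x.a * red y.b := rfl

instance : AddCommGroup Ex where
  add_assoc x y z := by ext <;> simp [add_assoc]
  zero_add x := by ext <;> simp
  add_zero x := by ext <;> simp
  nsmul := nsmulRec
  zsmul := zsmulRec
  neg_add_cancel x := by
    ext
    · simp
    · simp
    · simp
    · exact neg_add_cancel x.c
  add_comm x y := by ext <;> simp [add_comm]

instance : Ring Ex where
  left_distrib x y z := by ext <;> simp <;> ring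
  right_distrib x y z := by ext <;> simp <;> ring
  zero_mul x := by ext <;> simp
  mul_zero x := by ext <;> simp
  one_mul x := by ext <;> simp
  mul_one x := by ext <;> simp
  mul_assoc x y z := by ext <;> simp <;> ring
  zsmul := zsmulRec
  neg_add_cancel := neg_add_cancel

theorem red_eq_zero {a : ZMod 4} : red a = 0 ↔ 2 * a = 0 := by
  revert a; decide

theorem mem_center_iff (x : Ex) :
    x ∈ NonUnitalSubring.center Ex ↔ 2 * x.a = 0 ∧ 2 * x.b = 0 := by
  rw [NonUnitalSubring.mem_center_iff]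
  constructor
  · intro h
    have h1 := congrArg Ex.c (h ⟨0, 0, 1, 0⟩)
    have h2 := congrArg Ex.c (h ⟨0, 1, 0, 0⟩)
    simp at h1 h2
    exact ⟨red_eq_zero.1 h1.symm, red_eq_zero.1 h2⟩
  · rintro ⟨h1, h2⟩ y
    have h1' := red_eq_zero.2 h1
    have h2' := red_eq_zero.2 h2
    ext <;> simp [h1', h2'] <;> ring

theorem ess : IsCentrallyEssential Ex := by
  right
  intro a ha
  have hne : ¬ (2 * a.a = 0 ∧ 2 * a.b = 0) := fun h => ha ((mem_center_iff a).2 h)
  have key : ∀ z : ZMod 4, 2 * (2 * z) = 0 := by decide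
  refine ⟨⟨2, 0, 0, 0⟩, ?_, a * ⟨2, 0, 0, 0⟩, ?_, ?_, ?_, rfl⟩
  · rw [mem_center_iff]; simp
  · rw [mem_center_iff]
    constructor
    · simpa using key a.a
    · simpa using key a.b
  · intro h
    have := congrArg Ex.n h
    simp at this
  · intro h
    apply hne
    have h1 := congrArg Ex.a h
    have h2 := congrArg Ex.b h
    simp at h1 h2
    exact ⟨h1, h2⟩

theorem mem_jac (x : Ex) : x ∈ Ring.jacobson Ex ↔ x.n = 0 := by
  rw [← Ideal.jacobson_bot, Ideal.mem_jacobson_iff]
  simp only [Ideal.mem_bot]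
  constructor
  · intro h
    obtain ⟨z, hz⟩ := h ⟨3, 0, 0, 0⟩
    have h1 : (z * ⟨3, 0, 0, 0⟩ * x + z : Ex) = 1 := sub_eq_zero.1 hz
    have h2 := congrArg Ex.n h1
    simp at h2
    have h3 : z.n * (3 * x.n + 1) = 1 := by linarith [h2]
    have h4 := Int.eq_one_or_neg_one_of_mul_eq_one' h3
    omega
  · intro h y
    have hw : (y * x).n = 0 := by simp [h]
    have hw3 : (y * x) * (y * x) * (y * x) = 0 := by
      generalize y * x = w at hw
      ext <;> simp [hw]
    refine ⟨1 - y * x + (y * x) * (y * x), ?_⟩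
    have : (1 - y * x + (y * x) * (y * x)) * y * x + (1 - y * x + (y * x) * (y * x)) - 1
        = (y * x) * (y * x) * (y * x) := by noncomm_ring
    rw [this, hw3]

/-- The radical as a non-unital subring. -/
def J : NonUnitalSubring Ex where
  carrier := {x | x.n = 0}
  zero_mem' := rfl
  add_mem' {x y} hx hy := by
    simp only [Set.mem_ofPred_eq, add_n] at *
    simp [hx, hy]
  neg_mem' {x} hx := by
    simp only [Set.mem_ofPred_eq, neg_n] at *
    simp [hx]
  mul_mem' {x y} hx hy := by
    simp only [Set.mem_ofPred_eq, mul_n] at *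
    simp [hx]

theorem mem_J (x : Ex) : x ∈ J ↔ x.n = 0 := Iff.rfl

theorem not_ess : ¬ IsCentrallyEssential J := by
  rintro (h | h)
  · have h1 := h ⟨⟨0, 1, 0, 0⟩, rfl⟩ ⟨⟨0, 0, 1, 0⟩, rfl⟩
    have h2 := congrArg (fun z : J => (z : Ex).c) h1
    simp at h2
  · have hc : ∀ x : J, x ∈ NonUnitalSubring.center J → red (x : Ex).b = 0 := by
      intro x hx
      rw [NonUnitalSubring.mem_center_iff] at hx
      have h1 := congrArg (fun z : J => (z : Ex).c) (hx ⟨⟨0, 1, 0, 0⟩, rfl⟩)
      simpa using h1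
    obtain ⟨x, hx, y, hy, hx0, hy0, hxy⟩ := h ⟨⟨0, 1, 0, 0⟩, rfl⟩ (by
      intro hmem
      rw [NonUnitalSubring.mem_center_iff] at hmem
      have h1 := congrArg (fun z : J => (z : Ex).c) (hmem ⟨⟨0, 0, 1, 0⟩, rfl⟩)
      simp at h1)
    apply hy0
    rw [← hxy]
    have hb := hc x hx
    have hn : (x : Ex).n = 0 := x.2
    apply Subtype.ext
    change (⟨0, 1, 0, 0⟩ : Ex) * (x : Ex) = 0
    ext <;> simp [hn, hb]

end Ex

/-- There is a centrally essential ring whose Jacobson radical, regarded as a ring in its own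
right, is not centrally essential. -/
theorem result : ∃ (R : Type) (_ : Ring R) (J : NonUnitalSubring R),
    IsCentrallyEssential R ∧ (J : Set R) = (Ring.jacobson R : Set R) ∧
      ¬ IsCentrallyEssential J :=
  ⟨Ex, inferInstance, Ex.J, Ex.ess, Set.ext fun x => (Ex.mem_jac x).symm, Ex.not_ess⟩

end Pool.Agent.Results.MP_0b5955_al.JacobsonNotEssential
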